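import Mathlib

/-!
# Compactifications of small dense subsets of Cantor cubes

For every infinite cardinal `τ` we construct a dense subset `X0` of cardinality at most `τ` of the
cube `{0,1}^(T → Bool)`, `#T = τ`, and show that every compactification of `X0` contains a discrete
subspace of cardinality `τ⁺` (as the successor terms of a free sequence).
-/

set_option autoImplicit false
open Topology

namespace H360R3.Cpt

universe u

variable {T : Type u}

/-- the points of the dense set -/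
noncomputable def code (c : Σ s : Finset T, Finset (s → Bool)) : (T → Bool) → Bool := by
  classical
  exact fun i => decide ((fun k : c.1 => i k) ∈ c.2)

/-- the dense set -/
def X0 (T : Type u) : Set ((T → Bool) → Bool) := Set.range code

lemma X0_card [Infinite T] : Cardinal.mk (X0 T) ≤ Cardinal.mk T := by
  classical
  refine (Cardinal.mk_range_le).trans ?_
  have hc : ∀ s : Finset T, ∃ g : Finset (s → Bool) → ℕ, Function.Injective g :=
    fun s => exists_injective_nat _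
  choose g hg using hc
  have h1 : Cardinal.mk (Σ s : Finset T, Finset (s → Bool)) ≤ Cardinal.mk (Finset T × ULift.{u} ℕ) := by
    refine Cardinal.mk_le_of_injective (f := fun c => (c.1, ULift.up (g c.1 c.2))) ?_
    rintro ⟨s, x⟩ ⟨t, y⟩ h
    simp only [Prod.mk.injEq, ULift.up.injEq] at h
    obtain ⟨rfl, h2⟩ := h
    rw [hg _ h2]
  refine h1.trans ?_
  rw [Cardinal.mk_prod, Cardinal.lift_id, Cardinal.lift_id, Cardinal.mk_finset_of_infinite]
  simp

lemma separate (s : Finset (T → Bool)) :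
    ∃ A : Finset T, ∀ i ∈ s, ∀ j ∈ s, (∀ k ∈ A, i k = j k) → i = j := by
  classical
  have h : ∀ q : (T → Bool) × (T → Bool), ∃ A : Finset T, (∀ k ∈ A, q.1 k = q.2 k) → q.1 = q.2 := by
    intro q
    by_cases hq : q.1 = q.2
    · exact ⟨∅, fun _ => hq⟩
    · obtain ⟨k, hk⟩ := Function.ne_iff.mp hq
      exact ⟨{k}, fun h => absurd (h k (Finset.mem_singleton_self k)) hk⟩
  choose A hA using h
  refine ⟨(s ×ˢ s).biUnion A, fun i hi j hj h => hA (i, j) fun k hk => h k ?_⟩
  exact Finset.mem_biUnion.mpr ⟨(i, j), Finset.mk_mem_product hi hj, hk⟩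

lemma X0_dense (s : Finset (T → Bool)) (v : (T → Bool) → Bool) :
    ∃ x ∈ X0 T, ∀ i ∈ s, x i = v i := by
  classical
  obtain ⟨A, hA⟩ := separate s
  set S : Finset (A → Bool) := (s.filter (fun i => v i = true)).image
    (fun i => fun k : A => i k) with hS
  refine ⟨code ⟨A, S⟩, ⟨_, rfl⟩, fun i hi => ?_⟩
  have key : ((fun k : A => i k) ∈ S) ↔ v i = true := by
    rw [hS, Finset.mem_image]
    constructor
    · rintro ⟨j, hj, hji⟩
      rw [Finset.mem_filter] at hj
      have : i = j := hA i hi j hj.1 fun k hk => (congrFun hji ⟨k, hk⟩).symm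
      rw [this]
      exact hj.2
    · intro h
      exact ⟨i, Finset.mem_filter.mpr ⟨hi, h⟩, rfl⟩
  unfold code
  by_cases h : v i = true
  · rw [h]
    exact decide_eq_true (key.mpr h)
  · have h2 : v i = false := by simpa using h
    rw [h2]
    exact decide_eq_false fun h3 => h (key.mp h3)

/-- the index type `τ⁺` -/
abbrev W (τ : Cardinal.{u}) : Type u := (Order.succ τ).ord.ToType

lemma W_Iio {τ : Cardinal.{u}} (ξ : W τ) : Cardinal.mk (Set.Iio ξ) ≤ τ :=
  Order.lt_succ_iff.mp (Cardinal.mk_Iio_toType_ord_lt (c := Order.succ τ) ξ)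

lemma W_Iic {τ : Cardinal.{u}} (hτ : Cardinal.aleph0 ≤ τ) (ξ : W τ) :
    Cardinal.mk (Set.Iic ξ) ≤ τ := by
  have : Set.Iic ξ = Set.Iio ξ ∪ {ξ} := by
    ext x
    simp [le_iff_lt_or_eq]
  rw [this]
  refine (Cardinal.mk_union_le _ _).trans ?_
  rw [Cardinal.mk_singleton]
  exact Cardinal.add_le_of_le hτ (W_Iio ξ) (Cardinal.one_le_aleph0.trans hτ)

lemma W_bound {τ : Cardinal.{u}} (hτ : Cardinal.aleph0 ≤ τ) (C : Set (W τ))
    (hC : Cardinal.mk C ≤ τ) : ∃ δ : W τ, ∀ c ∈ C, c < δ := by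
  by_contra h
  push Not at h
  have h1 : Cardinal.mk (⋃ c ∈ C, Set.Iic c : Set (W τ)) ≤ τ := by
    refine (Cardinal.mk_biUnion_le _ _).trans ?_
    refine Cardinal.mul_le_of_le hτ hC (ciSup_le' fun c => W_Iic hτ c.1)
  have h2 : (⋃ c ∈ C, Set.Iic c : Set (W τ)) = Set.univ := by
    refine Set.eq_univ_of_forall fun δ => ?_
    obtain ⟨c, hc, hδ⟩ := h δ
    exact Set.mem_biUnion hc hδ
  rw [h2, Cardinal.mk_univ, Cardinal.mk_ord_toType] at h1
  exact absurd h1 (not_le.mpr (Order.lt_succ τ))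

/-- selection of coordinates -/
lemma exists_seq {τ : Cardinal.{u}} (hτ : Cardinal.aleph0 ≤ τ) (hT : Cardinal.mk T = τ)
    (a : (T → Bool) → Finset (T → Bool)) :
    ∃ f : W τ → (T → Bool), ∀ ξ η : W τ, η < ξ → f ξ ∉ a (f η) := by
  have ex : ∀ (ξ : W τ) (g : (η : W τ) → η < ξ → (T → Bool)),
      ∃ i : T → Bool, ∀ η (h : η < ξ), i ∉ a (g η h) := by
    intro ξ g
    by_contra hc
    push Not at hc
    have h1 : Cardinal.mk (⋃ η : Set.Iio ξ, (a (g η.1 η.2) : Set (T → Bool))) ≤ τ := by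
      refine (Cardinal.mk_iUnion_le _).trans ?_
      refine Cardinal.mul_le_of_le hτ (W_Iio ξ) (ciSup_le' fun η => ?_)
      exact (Cardinal.lt_aleph0_of_finite _).le.trans hτ
    have h2 : (⋃ η : Set.Iio ξ, (a (g η.1 η.2) : Set (T → Bool))) = Set.univ := by
      refine Set.eq_univ_of_forall fun i => ?_
      obtain ⟨η, h, hi⟩ := hc i
      exact Set.mem_iUnion.mpr ⟨⟨η, h⟩, hi⟩
    rw [h2, Cardinal.mk_univ] at h1
    have h3 : Cardinal.mk (T → Bool) = 2 ^ τ := by simp [hT]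
    rw [h3] at h1
    exact absurd h1 (not_le.mpr (Cardinal.cantor τ))
  let F : (ξ : W τ) → ((η : W τ) → η < ξ → (T → Bool)) → (T → Bool) :=
    fun ξ g => Classical.choose (ex ξ g)
  have hwf : WellFounded (fun η ξ : W τ => η < ξ) := wellFounded_lt
  refine ⟨hwf.fix F, fun ξ η h => ?_⟩
  rw [hwf.fix_eq F ξ]
  exact Classical.choose_spec (ex ξ fun η _ => hwf.fix F η) η h

/-- In every compactification of `X0 T` there is a free sequence of length `τ⁺`. -/
lemma exists_free {τ : Cardinal.{u}} (hτ : Cardinal.aleph0 ≤ τ) (hT : Cardinal.mk T = τ)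
    {K : Type*} [TopologicalSpace K] [CompactSpace K] [T2Space K] (e : X0 T → K)
    (he : IsEmbedding e) :
    ∃ (y : W τ → K) (A B : W τ → Set K), (∀ ξ, IsClosed (A ξ)) ∧ (∀ ξ, IsClosed (B ξ)) ∧
      (∀ ξ, ∀ z ∈ A ξ, z ∉ B ξ) ∧ (∀ ξ, ∀ η < ξ, y ξ ∈ A η) ∧ (∀ ξ η, ξ ≤ η → y ξ ∈ B η) := by
  classical
  have p : X0 T := ⟨code ⟨∅, ∅⟩, ⟨_, rfl⟩⟩
  -- the closed sets
  have hC : ∀ i : T → Bool, ∃ (C1 C0 : Set K) (a : Finset (T → Bool)), IsClosed C1 ∧ IsClosed C0 ∧
      (∀ y, y ∈ C1 → y ∉ C0) ∧ (∀ x : X0 T, (∀ j ∈ a, x.1 j = p.1 j) → e x ∈ C1) ∧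
      (∀ x : X0 T, x.1 i ≠ p.1 i → e x ∈ C0) := by
    intro i
    have hP : IsOpen {x : X0 T | x.1 i = p.1 i} := by
      have hc : Continuous (fun x : X0 T => x.1 i) :=
        (continuous_apply i).comp continuous_subtype_val
      exact (isOpen_discrete {p.1 i}).preimage hc
    obtain ⟨V, hVo, hV⟩ := he.isInducing.isOpen_iff.mp hP
    have hpV : e p ∈ V := by
      have : p ∈ e ⁻¹' V := by
        rw [hV]
        rfl
      exact this
    obtain ⟨C1, hC1n, hC1c, hC1V⟩ := exists_mem_nhds_isClosed_subset (hVo.mem_nhds hpV)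
    have hU : IsOpen (e ⁻¹' interior C1) := isOpen_interior.preimage he.continuous
    obtain ⟨U, hUo, hUe⟩ := isOpen_induced_iff.mp hU
    have hpU : p.1 ∈ U := by
      have h1 : p ∈ (Subtype.val : X0 T → (T → Bool) → Bool) ⁻¹' U := by
        rw [hUe]
        exact mem_interior_iff_mem_nhds.mpr hC1n
      exact h1
    obtain ⟨a, u, hu, hau⟩ := isOpen_pi_iff.mp hUo p.1 hpU
    refine ⟨C1, Vᶜ, a, hC1c, hVo.isClosed_compl, fun y hy hy' => hy' (hC1V hy), fun x hx => ?_,
      fun x hx hxV => ?_⟩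
    · have hxU : x.1 ∈ U := hau fun j hj => by
        rw [hx j hj]
        exact (hu j hj).2
      have h1 : x ∈ (Subtype.val : X0 T → (T → Bool) → Bool) ⁻¹' U := hxU
      rw [hUe] at h1
      exact interior_subset h1
    · have h1 : x ∈ e ⁻¹' V := hxV
      rw [hV] at h1
      exact hx h1
  choose C1 C0 a hC1 hC0 hdisj ha1 ha0 using hC
  obtain ⟨f, hf⟩ := exists_seq hτ hT a
  -- the points
  have hy : ∀ ξ : W τ, ∃ y : K, (∀ η < ξ, y ∈ C1 (f η)) ∧ (∀ η, ξ ≤ η → y ∈ C0 (f η)) := by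
    intro ξ
    have h1 : (⋂ η : W τ, (if η < ξ then C1 (f η) else C0 (f η))).Nonempty := by
      refine CompactSpace.iInter_nonempty (fun η => ?_) (fun s => ?_)
      · split_ifs
        · exact hC1 _
        · exact hC0 _
      · set A : Finset (T → Bool) := (s.filter (fun η => η < ξ)).biUnion (fun η => a (f η)) with hA
        set B : Finset (T → Bool) := (s.filter (fun η => ¬ η < ξ)).image f with hB
        obtain ⟨x, hx, hxv⟩ := X0_dense (A ∪ B) (fun i => if i ∈ A then p.1 i else !(p.1 i))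
        refine ⟨e ⟨x, hx⟩, Set.mem_iInter₂.mpr fun η hη => ?_⟩
        split_ifs with hlt
        · refine ha1 _ _ fun j hj => ?_
          have hjA : j ∈ A := by
            rw [hA, Finset.mem_biUnion]
            exact ⟨η, Finset.mem_filter.mpr ⟨hη, hlt⟩, hj⟩
          have := hxv j (Finset.mem_union_left _ hjA)
          simpa [hjA] using this
        · refine ha0 _ _ ?_
          have hB' : f η ∈ B := by
            rw [hB, Finset.mem_image]
            exact ⟨η, Finset.mem_filter.mpr ⟨hη, hlt⟩, rfl⟩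
          have hnA : f η ∉ A := by
            rw [hA, Finset.mem_biUnion]
            rintro ⟨η', hη', hmem⟩
            rw [Finset.mem_filter] at hη'
            exact hf η η' (lt_of_lt_of_le hη'.2 (not_lt.mp hlt)) hmem
          have := hxv (f η) (Finset.mem_union_right _ hB')
          rw [if_neg hnA] at this
          change x (f η) ≠ p.1 (f η)
          rw [this]
          cases p.1 (f η) <;> decide
    obtain ⟨y, hy⟩ := h1
    rw [Set.mem_iInter] at hy
    refine ⟨y, fun η hη => ?_, fun η hη => ?_⟩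
    · have := hy η
      rwa [if_pos hη] at this
    · have := hy η
      rwa [if_neg (not_lt.mpr hη)] at this
  choose y hy1 hy0 using hy
  exact ⟨y, fun ξ => C1 (f ξ), fun ξ => C0 (f ξ), fun ξ => hC1 _, fun ξ => hC0 _,
    fun ξ => hdisj _, hy1, hy0⟩

/-- A family of points indexed by a type of cardinality `τ⁺` which is injective and discrete. -/
lemma exists_discrete {τ : Cardinal.{u}} (hτ : Cardinal.aleph0 ≤ τ) (hT : Cardinal.mk T = τ)
    {K : Type*} [TopologicalSpace K] [CompactSpace K] [T2Space K] (e : X0 T → K)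
    (he : IsEmbedding e) :
    ∃ h : W τ → K, ∀ ξ, ∃ O : Set K, IsOpen O ∧ h ξ ∈ O ∧ ∀ ζ, h ζ ∈ O → ζ = ξ := by
  obtain ⟨y, A, B, hA, hB, hAB, hyA, hyB⟩ := exists_free hτ hT e he
  have hwf : WellFounded (fun η ξ : W τ => η < ξ) := wellFounded_lt
  have hne : ∀ ξ : W τ, (Set.Ioi ξ).Nonempty := by
    intro ξ
    obtain ⟨δ, hδ⟩ := W_bound hτ {ξ} (by
      rw [Cardinal.mk_singleton]
      exact Cardinal.one_le_aleph0.trans hτ)
    exact ⟨δ, hδ ξ rfl⟩
  -- successor
  set s : W τ → W τ := fun ξ => hwf.min (Set.Ioi ξ) (hne ξ) with hs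
  have hs1 : ∀ ξ, ξ < s ξ := fun ξ => hwf.min_mem (Set.Ioi ξ) (hne ξ)
  have hs2 : ∀ ξ ζ, ξ < ζ → s ξ ≤ ζ := fun ξ ζ h => not_lt.mp (hwf.not_lt_min (Set.Ioi ξ) h)
  refine ⟨fun ξ => y (s ξ), fun ξ => ⟨(B ξ ∪ A (s ξ))ᶜ, ((hB _).union (hA _)).isOpen_compl, ?_, ?_⟩⟩
  · rintro (h | h)
    · exact hAB _ _ (hyA (s ξ) ξ (hs1 ξ)) h
    · exact hAB _ _ h (hyB (s ξ) (s ξ) le_rfl)
  · intro ζ hζ
    rcases lt_trichotomy ζ ξ with h | h | h
    · exact absurd (Or.inl (hyB (s ζ) ξ (hs2 ζ ξ h))) hζ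
    · exact h
    · exact absurd (Or.inr (hyA (s ζ) (s ξ) (lt_of_le_of_lt (hs2 ξ ζ h) (hs1 ζ)))) hζ

end H360R3.Cpt
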