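import Mathlib

set_option autoImplicit false

/-!
A ZFC example of a `T₁` hereditarily Lindelöf space which is not dually discrete.

Points are well-founded countably branching trees.  `T x` is the set of children of `x` if this
set is discrete (in the topology which is being defined), and empty otherwise.
The basic open sets are `B G H = {x | T x ∩ G = ∅, x ∉ H}` with `G, H` finite.
-/

namespace Pool.Agent.H360R3.DD

inductive X : Type
  | leaf : X
  | node : (ℕ → X) → X

/-- Children of a point, provided they form a discrete set. -/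
def T : X → Set X
  | .leaf => ∅
  | .node f => {y | (∃ n, f n = y) ∧ ∀ n, ∃ G H : Finset X, (∀ g ∈ G, g ∉ T (f n)) ∧ f n ∉ H ∧
      ∀ m, (∀ g ∈ G, g ∉ T (f m)) → f m ∉ H → f m = f n}

def B (G H : Finset X) : Set X := {x | (∀ g ∈ G, g ∉ T x) ∧ x ∉ H}

def Disc (D : Set X) : Prop :=
  ∀ d ∈ D, ∃ G H : Finset X, d ∈ B G H ∧ ∀ x ∈ D, x ∈ B G H → x = d

lemma T_leaf : T .leaf = ∅ := rfl

lemma T_node (f : ℕ → X) : T (.node f) =
    {y | (∃ n, f n = y) ∧ ∀ n, ∃ G H : Finset X, (∀ g ∈ G, g ∉ T (f n)) ∧ f n ∉ H ∧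
      ∀ m, (∀ g ∈ G, g ∉ T (f m)) → f m ∉ H → f m = f n} := rfl

lemma T_countable (x : X) : (T x).Countable := by
  cases x with
  | leaf => rw [T_leaf]; exact Set.countable_empty
  | node f =>
    refine (Set.countable_range f).mono ?_
    rw [T_node]
    rintro y ⟨⟨n, hn⟩, -⟩
    exact ⟨n, hn⟩

lemma T_disc (x : X) : Disc (T x) := by
  cases x with
  | leaf => rw [T_leaf]; intro d hd; exact absurd hd (Set.notMem_empty d)
  | node f =>
    rw [T_node]
    rintro d ⟨⟨n, rfl⟩, h⟩
    obtain ⟨G, H, h1, h2, h3⟩ := h n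
    refine ⟨G, H, ⟨h1, h2⟩, ?_⟩
    rintro x ⟨⟨m, rfl⟩, -⟩ ⟨hx1, hx2⟩
    exact h3 m hx1 hx2

lemma notMem_T (x : X) : x ∉ T x := by
  induction x with
  | leaf => rw [T_leaf]; exact Set.notMem_empty _
  | node f ih =>
    intro h
    have h' := h
    rw [T_node] at h'
    obtain ⟨⟨n, hn⟩, -⟩ := h'
    apply ih n
    rw [hn]
    exact h

lemma exists_T_eq (D : Set X) (hD : D.Countable) (hne : D.Nonempty) (hd : Disc D) :
    ∃ y, T y = D := by
  obtain ⟨f, rfl⟩ := hD.exists_eq_range hne
  refine ⟨.node f, ?_⟩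
  rw [T_node]
  ext y
  constructor
  · rintro ⟨⟨n, hn⟩, -⟩; exact ⟨n, hn⟩
  · rintro ⟨n, hn⟩
    refine ⟨⟨n, hn⟩, fun n => ?_⟩
    obtain ⟨G, H, ⟨h1, h2⟩, h3⟩ := hd (f n) ⟨n, rfl⟩
    exact ⟨G, H, h1, h2, fun m hm1 hm2 => h3 (f m) ⟨m, rfl⟩ ⟨hm1, hm2⟩⟩

lemma countable_finsets {α : Type*} {S : Set α} (hS : S.Countable) :
    {a : Finset α | (a : Set α) ⊆ S}.Countable := by
  classical
  have := hS.to_subtype
  have h : {a : Finset α | (a:Set α) ⊆ S} ⊆
      Set.range (fun b : Finset S => b.map (Function.Embedding.subtype _)) := by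
    intro a ha
    refine ⟨a.subtype (· ∈ S), ?_⟩
    exact Finset.subtype_map_of_mem (fun x hx => ha hx)
  exact (Set.countable_range _).mono h

/-- Closing off a countable set under a countable-set-valued function of finite sets. -/
lemma closure_lemma {α : Type*} (Φ : Finset α → Set α) (hΦ : ∀ a, (Φ a).Countable)
    (R : Set α) (hR : R.Countable) :
    ∃ S : Set α, S.Countable ∧ R ⊆ S ∧ ∀ a : Finset α, (a : Set α) ⊆ S → Φ a ⊆ S := by
  classical
  let nxt : Set α → Set α := fun S => S ∪ ⋃ a ∈ {a : Finset α | (a : Set α) ⊆ S}, Φ a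
  let s : ℕ → Set α := fun n => nxt^[n] R
  have hs : ∀ n, s (n+1) = nxt (s n) := fun n => Function.iterate_succ_apply' nxt n R
  have hmono : Monotone s := by
    apply monotone_nat_of_le_succ
    intro n
    rw [hs]
    exact Set.subset_union_left
  have hc : ∀ n, (s n).Countable := by
    intro n
    induction n with
    | zero => exact hR
    | succ n ih =>
      rw [hs]
      exact ih.union ((countable_finsets ih).biUnion (fun a _ => hΦ a))
  refine ⟨⋃ n, s n, Set.countable_iUnion hc, Set.subset_iUnion s 0, ?_⟩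
  intro a ha
  have hfin : ∃ n, (a : Set α) ⊆ s n := by
    induction a using Finset.induction_on with
    | empty => exact ⟨0, by simp⟩
    | insert x t hx ih =>
      rw [Finset.coe_insert, Set.insert_subset_iff] at ha
      obtain ⟨n, hn⟩ := ih ha.2
      obtain ⟨m, hm⟩ := Set.mem_iUnion.1 ha.1
      refine ⟨max n m, ?_⟩
      rw [Finset.coe_insert, Set.insert_subset_iff]
      exact ⟨hmono (le_max_right _ _) hm, hn.trans (hmono (le_max_left _ _))⟩
  obtain ⟨n, hn⟩ := hfin
  refine Set.Subset.trans ?_ (Set.subset_iUnion s (n+1))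
  rw [hs]
  refine Set.Subset.trans ?_ Set.subset_union_right
  exact Set.subset_biUnion_of_mem (u := fun a : Finset α => Φ a) hn

lemma L0 {k : ℕ} (F : Set (Fin k → X)) (R : Set X) (hR : R.Countable) :
    ∃ S : Set X, S.Countable ∧ R ⊆ S ∧
      ∀ (G : Fin k → Finset X) (H : Finset X),
        (∃ f ∈ F, (∀ i, f i ∉ S) ∧ ∀ i, ∀ g ∈ G i, g ∉ T (f i)) →
        ∃ f ∈ F, (∀ i, f i ∈ S) ∧ (∀ i, f i ∉ R) ∧ (∀ i, f i ∉ H) ∧
          ∀ i, ∀ g ∈ G i, g ∉ T (f i) := by
  classical
  let P : (Fin k → Finset X) → Finset X → (Fin k → X) → Prop := fun G a f =>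
    f ∈ F ∧ (∀ i, f i ∉ R) ∧ (∀ i, f i ∉ a) ∧ ∀ i, ∀ g ∈ G i, g ∉ T (f i)
  let c : (Fin k → Finset X) → Finset X → (Fin k → X) := fun G a =>
    if h : ∃ f, P G a f then h.choose else fun _ => .leaf
  have hcP : ∀ G a, (∃ f, P G a f) → P G a (c G a) := by
    intro G a h
    simp only [c, dif_pos h]
    exact h.choose_spec
  let Φ : Finset X → Set X := fun a =>
    (⋃ e ∈ (a : Set X), T e) ∪
      ⋃ G ∈ ((Fintype.piFinset (fun _ : Fin k => a.powerset) : Finset (Fin k → Finset X)) :
        Set (Fin k → Finset X)), Set.range (c G a)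
  have hΦ : ∀ a, (Φ a).Countable := by
    intro a
    refine Set.Countable.union ?_ ?_
    · exact (Finset.countable_toSet a).biUnion (fun e _ => T_countable e)
    · exact (Finset.countable_toSet _).biUnion (fun G _ => Set.countable_range _)
  obtain ⟨S, hSc, hRS, hS⟩ := closure_lemma Φ hΦ R hR
  refine ⟨S, hSc, hRS, ?_⟩
  have hTS : ∀ e ∈ S, T e ⊆ S := by
    intro e he
    have h1 := hS {e} (by simpa using he)
    refine Set.Subset.trans ?_ h1
    refine Set.Subset.trans ?_ Set.subset_union_left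
    exact Set.subset_biUnion_of_mem (u := fun e : X => T e) (by simp)
  intro G H ⟨f, hf, hfS, hfG⟩
  let G' : Fin k → Finset X := fun i => (G i).filter (· ∈ S)
  let a : Finset X := (Finset.univ.biUnion G') ∪ H.filter (· ∈ S)
  have haS : (a : Set X) ⊆ S := by
    intro x hx
    simp only [a, Finset.coe_union, Set.mem_union, Finset.mem_coe, Finset.mem_biUnion,
      Finset.mem_filter, G', Finset.mem_univ, true_and] at hx
    rcases hx with ⟨i, hi⟩ | hx
    · exact hi.2
    · exact hx.2
  have hex : ∃ f, P G' a f := by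
    refine ⟨f, hf, fun i hi => hfS i (hRS hi), fun i hi => hfS i (haS hi), ?_⟩
    intro i g hg
    exact hfG i g (Finset.mem_filter.1 hg).1
  have hP := hcP G' a hex
  obtain ⟨h1, h2, h3, h4⟩ := hP
  have hmemS : ∀ i, c G' a i ∈ S := by
    intro i
    apply hS a haS
    right
    refine Set.mem_biUnion (x := G') ?_ ⟨i, rfl⟩
    rw [Finset.mem_coe, Fintype.mem_piFinset]
    intro j
    rw [Finset.mem_powerset]
    intro x hx
    exact Finset.mem_union_left _ (Finset.mem_biUnion.2 ⟨j, Finset.mem_univ _, hx⟩)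
  refine ⟨c G' a, h1, hmemS, h2, ?_, ?_⟩
  · intro i hi
    apply h3 i
    exact Finset.mem_union_right _ (Finset.mem_filter.2 ⟨hi, hmemS i⟩)
  · intro i g hg hgT
    exact h4 i g (Finset.mem_filter.2 ⟨hg, hTS _ (hmemS i) hgT⟩) hgT

lemma L1 {k : ℕ} (F : Set (Fin k → X))
    (hF : ∀ S : Set X, S.Countable → ∃ f ∈ F, ∀ i, f i ∉ S) :
    ∃ F₀ ⊆ F, F₀.Countable ∧ ∀ D, Disc D → ∃ f ∈ F₀, ∀ i, f i ∉ D := by
  classical
  choose! nxt hn1 hn2 hn3 using (fun R hR => L0 F R hR)
  let r : ℕ → Set X := fun n => nxt^[n] ∅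
  have hr : ∀ n, r (n+1) = nxt (r n) := fun n => Function.iterate_succ_apply' nxt n ∅
  have hrc : ∀ n, (r n).Countable := by
    intro n
    induction n with
    | zero => exact Set.countable_empty
    | succ n ih => rw [hr]; exact hn1 _ ih
  have hmono : Monotone r := by
    apply monotone_nat_of_le_succ
    intro n
    rw [hr]
    exact hn2 _ (hrc n)
  refine ⟨{f | f ∈ F ∧ ∀ i, f i ∈ r (k+1)}, fun f hf => hf.1, ?_, ?_⟩
  · refine Set.Countable.mono ?_ (Set.countable_pi (fun _ : Fin k => hrc (k+1)))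
    intro f hf
    exact hf.2
  · intro D hD
    by_contra hcon
    push Not at hcon
    let W : Set X := {x | ∃ G H : Finset X, x ∈ B G H ∧ ∀ y ∈ D, y ∉ B G H}
    have hWD : ∀ x ∈ D, x ∉ W := by
      rintro x hx ⟨G, H, h1, h2⟩
      exact h2 x hx h1
    have key : ∀ m j : ℕ, j + m = k → ∃ f ∈ F, (∀ i, f i ∈ r (j+1)) ∧ (∀ i, f i ∉ r j) ∧
        ∃ I : Finset (Fin k), I.card = m ∧ ∀ i ∈ I, f i ∈ W := by
      intro m
      induction m with
      | zero =>
        intro j hj
        obtain ⟨f, hf, hfS⟩ := hF (r (j+1)) (hrc _)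
        obtain ⟨f', h1, h2, h3, -, -⟩ := hn3 (r j) (hrc j) (fun _ => ∅) ∅
          ⟨f, hf, by rw [← hr]; exact hfS, by simp⟩
        refine ⟨f', h1, ?_, h3, ∅, rfl, by simp⟩
        rw [hr]; exact h2
      | succ m ih =>
        intro j hj
        obtain ⟨f, hf, hf1, hf2, I, hI, hIW⟩ := ih (j+1) (by omega)
        have hf0 : f ∈ {f | f ∈ F ∧ ∀ i, f i ∈ r (k+1)} :=
          ⟨hf, fun i => hmono (by omega) (hf1 i)⟩
        obtain ⟨i₀, hi₀⟩ := hcon f hf0
        have hi₀I : i₀ ∉ I := fun h => hWD _ hi₀ (hIW _ h)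
        obtain ⟨G₀, H₀, hd1, hd2⟩ := hD (f i₀) hi₀
        have hIW' : ∀ i, ∃ G H : Finset X, i ∈ I → (f i ∈ B G H ∧ ∀ y ∈ D, y ∉ B G H) := by
          intro i
          by_cases hi : i ∈ I
          · obtain ⟨G, H, h⟩ := hIW i hi
            exact ⟨G, H, fun _ => h⟩
          · exact ⟨∅, ∅, fun h => absurd h hi⟩
        choose Gf Hf hGH using hIW'
        let G : Fin k → Finset X := fun i => if i = i₀ then G₀ else if i ∈ I then Gf i else ∅
        let H : Finset X := insert (f i₀) (H₀ ∪ Finset.univ.biUnion Hf)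
        obtain ⟨f', h1, h2, h3, h4, h5⟩ := hn3 (r j) (hrc j) G H ⟨f, hf, by rw [← hr]; exact hf2, by
          intro i g hg
          by_cases hi : i = i₀
          · subst hi
            simp only [G, if_true] at hg
            exact hd1.1 g hg
          · by_cases hiI : i ∈ I
            · simp only [G, if_neg hi, if_pos hiI] at hg
              exact (hGH i hiI).1.1 g hg
            · simp only [G, if_neg hi, if_neg hiI] at hg
              exact absurd hg (Finset.notMem_empty _)⟩
        refine ⟨f', h1, by rw [hr]; exact h2, h3, insert i₀ I, ?_, ?_⟩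
        · rw [Finset.card_insert_of_notMem hi₀I, hI]
        · intro i hi
          rw [Finset.mem_insert] at hi
          by_cases hii : i = i₀
          · subst hii
            refine ⟨G₀, insert (f i) H₀, ⟨?_, ?_⟩, ?_⟩
            · intro g hg
              apply h5 i g
              simp only [G, if_true]
              exact hg
            · intro hmem
              apply h4 i
              rw [Finset.mem_insert] at hmem
              rcases hmem with hmem | hmem
              · exact Finset.mem_insert.2 (Or.inl hmem)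
              · exact Finset.mem_insert_of_mem (Finset.mem_union_left _ hmem)
            · intro y hy hyB
              have hyy : y = f i := hd2 y hy ⟨hyB.1, fun h => hyB.2 (Finset.mem_insert_of_mem h)⟩
              exact hyB.2 (by rw [hyy]; exact Finset.mem_insert_self _ _)
          · have hiI : i ∈ I := by
              rcases hi with hi | hi
              · exact absurd hi hii
              · exact hi
            refine ⟨Gf i, Hf i, ⟨?_, ?_⟩, (hGH i hiI).2⟩
            · intro g hg
              apply h5 i g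
              simp only [G, if_neg hii, if_pos hiI]
              exact hg
            · intro hmem
              apply h4 i
              exact Finset.mem_insert_of_mem (Finset.mem_union_right _
                (Finset.mem_biUnion.2 ⟨i, Finset.mem_univ _, hmem⟩))
    obtain ⟨f, hf, hf1, -, I, hI, hIW⟩ := key k 0 (by omega)
    have hIu : I = Finset.univ := by
      apply Finset.eq_univ_of_card
      rw [hI, Fintype.card_fin]
    obtain ⟨i₀, hi₀⟩ := hcon f ⟨hf, fun i => hmono (by omega) (hf1 i)⟩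
    exact hWD _ hi₀ (hIW _ (by rw [hIu]; exact Finset.mem_univ _))


/-- The hereditary Lindelöf property at the level of basic open sets. -/
lemma countable_subcover (W : Set (Finset X × Finset X)) :
    ∃ W' ⊆ W, W'.Countable ∧ ∀ p ∈ W, ∀ x ∈ B p.1 p.2, ∃ q ∈ W', x ∈ B q.1 q.2 := by
  classical
  let Fam : Finset X → (k : ℕ) → Set (Fin k → X) := fun r k =>
    {f | ∃ H, (r ∪ Finset.univ.image f, H) ∈ W}
  have step : ∀ (r : Finset X) (k : ℕ), ∃ (C : Set X) (W₀ : Set (Finset X × Finset X)),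
      C.Countable ∧ W₀ ⊆ W ∧ W₀.Countable ∧
      ((∀ f ∈ Fam r k, ∃ i, f i ∈ C) ∨
        (∀ D, Disc D → ∃ q ∈ W₀, ∀ g ∈ q.1, g ∈ r ∨ g ∉ D)) := by
    intro r k
    by_cases h : ∀ S : Set X, S.Countable → ∃ f ∈ Fam r k, ∀ i, f i ∉ S
    · obtain ⟨F₀, hF₀, hF₀c, hF₀D⟩ := L1 (Fam r k) h
      have hch : ∀ f : Fin k → X, ∃ H, f ∈ Fam r k → (r ∪ Finset.univ.image f, H) ∈ W := by
        intro f
        by_cases hf : f ∈ Fam r k
        · obtain ⟨H, hH⟩ := hf
          exact ⟨H, fun _ => hH⟩
        · exact ⟨∅, fun h => absurd h hf⟩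
      choose Hc hHc using hch
      refine ⟨∅, (fun f => (r ∪ Finset.univ.image f, Hc f)) '' F₀, Set.countable_empty, ?_,
        hF₀c.image _, Or.inr ?_⟩
      · rintro q ⟨f, hf, rfl⟩
        exact hHc f (hF₀ hf)
      · intro D hD
        obtain ⟨f, hf, hfD⟩ := hF₀D D hD
        refine ⟨_, ⟨f, hf, rfl⟩, ?_⟩
        intro g hg
        simp only [Finset.mem_union, Finset.mem_image, Finset.mem_univ, true_and] at hg
        rcases hg with hg | ⟨i, rfl⟩
        · exact Or.inl hg
        · exact Or.inr (hfD i)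
    · push Not at h
      obtain ⟨S, hS, hS2⟩ := h
      exact ⟨S, ∅, hS, Set.empty_subset _, Set.countable_empty, Or.inl hS2⟩
  choose C W₀ hC hW₀ hW₀c hCW using step
  let Φ : Finset X → Set X := fun r => ⋃ k : ℕ, (C r k ∪ ⋃ q ∈ W₀ r k, (q.2 : Set X))
  have hΦ : ∀ a, (Φ a).Countable := by
    intro a
    refine Set.countable_iUnion (fun k => (hC a k).union ?_)
    exact (hW₀c a k).biUnion (fun q _ => Finset.countable_toSet _)
  obtain ⟨S, hSc, -, hS⟩ := closure_lemma Φ hΦ ∅ Set.countable_empty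
  have hch : ∀ x : X, ∃ q : Finset X × Finset X, (∃ p ∈ W, x ∈ B p.1 p.2) → q ∈ W ∧ x ∈ B q.1 q.2 := by
    intro x
    by_cases h : ∃ p ∈ W, x ∈ B p.1 p.2
    · obtain ⟨p, hp, hx⟩ := h
      exact ⟨p, fun _ => ⟨hp, hx⟩⟩
    · exact ⟨(∅, ∅), fun h' => absurd h' h⟩
  choose qc hqc using hch
  refine ⟨(⋃ r ∈ {a : Finset X | (a : Set X) ⊆ S}, ⋃ k : ℕ, W₀ r k) ∪
    (qc '' {x | x ∈ S ∧ ∃ p ∈ W, x ∈ B p.1 p.2}), ?_, ?_, ?_⟩
  · apply Set.union_subset
    · refine Set.iUnion₂_subset (fun r _ => Set.iUnion_subset (fun k => hW₀ r k))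
    · rintro q ⟨x, ⟨-, hx⟩, rfl⟩
      exact (hqc x hx).1
  · refine Set.Countable.union ?_ ?_
    · exact (countable_finsets hSc).biUnion (fun r _ => Set.countable_iUnion (fun k => hW₀c r k))
    · exact (hSc.mono (fun x hx => hx.1)).image _
  · rintro ⟨G, H⟩ hp x hx
    by_cases hxS : x ∈ S
    · exact ⟨qc x, Or.inr ⟨x, ⟨hxS, ⟨(G, H), hp, hx⟩⟩, rfl⟩, (hqc x ⟨(G, H), hp, hx⟩).2⟩
    · let r : Finset X := G.filter (· ∈ S)
      let G' : Finset X := G.filter (· ∉ S)
      let e := G'.equivFin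
      let f : Fin G'.card → X := fun i => (e.symm i : X)
      have hrS : (r : Set X) ⊆ S := by
        intro y hy
        exact (Finset.mem_filter.1 (Finset.mem_coe.1 hy)).2
      have hfG : r ∪ Finset.univ.image f = G := by
        ext y
        simp only [Finset.mem_union, Finset.mem_image, Finset.mem_univ, true_and, r,
          Finset.mem_filter]
        constructor
        · rintro (h | ⟨i, rfl⟩)
          · exact h.1
          · exact (Finset.mem_filter.1 (e.symm i).2).1
        · intro hy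
          by_cases hyS : y ∈ S
          · exact Or.inl ⟨hy, hyS⟩
          · right
            refine ⟨e ⟨y, Finset.mem_filter.2 ⟨hy, hyS⟩⟩, ?_⟩
            simp [f]
      have hfF : f ∈ Fam r G'.card := ⟨H, by rw [hfG]; exact hp⟩
      have hfS : ∀ i, f i ∉ S := fun i => (Finset.mem_filter.1 (e.symm i).2).2
      have hΦS := hS r hrS
      rcases hCW r G'.card with h | h
      · obtain ⟨i, hi⟩ := h f hfF
        exact absurd (hΦS (Set.mem_iUnion.2 ⟨G'.card, Or.inl hi⟩)) (hfS i)
      · obtain ⟨q, hq, hqD⟩ := h (T x) (T_disc x)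
        refine ⟨q, Or.inl ?_, ?_, ?_⟩
        · exact Set.mem_biUnion (x := r) hrS (Set.mem_iUnion.2 ⟨_, hq⟩)
        · intro g hg
          rcases hqD g hg with h | h
          · exact hx.1 g (Finset.mem_filter.1 h).1
          · exact h
        · intro hxq
          apply hxS
          apply hΦS
          refine Set.mem_iUnion.2 ⟨G'.card, Or.inr ?_⟩
          exact Set.mem_biUnion hq hxq

def basis : Set (Set X) := {s | ∃ G H : Finset X, s = B G H}

instance top : TopologicalSpace X := TopologicalSpace.generateFrom basis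

lemma isBasis : TopologicalSpace.IsTopologicalBasis basis where
  exists_subset_inter := by
    classical
    rintro _ ⟨G, H, rfl⟩ _ ⟨G', H', rfl⟩ x ⟨h1, h2⟩
    refine ⟨B (G ∪ G') (H ∪ H'), ⟨_, _, rfl⟩, ⟨?_, ?_⟩, ?_⟩
    · intro g hg
      rcases Finset.mem_union.1 hg with hg | hg
      · exact h1.1 g hg
      · exact h2.1 g hg
    · intro h
      rcases Finset.mem_union.1 h with h | h
      · exact h1.2 h
      · exact h2.2 h
    · rintro y ⟨hy1, hy2⟩
      exact ⟨⟨fun g hg => hy1 g (Finset.mem_union_left _ hg),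
        fun h => hy2 (Finset.mem_union_left _ h)⟩,
        ⟨fun g hg => hy1 g (Finset.mem_union_right _ hg),
        fun h => hy2 (Finset.mem_union_right _ h)⟩⟩
  sUnion_eq := by
    apply Set.eq_univ_of_forall
    intro x
    exact ⟨B ∅ ∅, ⟨_, _, rfl⟩, by simp [B]⟩
  eq_generateFrom := rfl

lemma isOpen_B (G H : Finset X) : IsOpen (B G H) := isBasis.isOpen ⟨G, H, rfl⟩

instance t1 : T1Space X where
  t1 x := by
    rw [← isOpen_compl_iff]
    have : ({x} : Set X)ᶜ = B ∅ {x} := by
      ext y; simp [B]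
    rw [this]
    exact isOpen_B _ _

lemma isLindelof_set (t : Set X) : IsLindelof t := by
  apply isLindelof_of_countable_subcover
  intro ι U hU htU
  let W : Set (Finset X × Finset X) := {p | ∃ i, B p.1 p.2 ⊆ U i}
  obtain ⟨W', hW', hW'c, hcov⟩ := countable_subcover W
  have hch : ∀ p : Finset X × Finset X, p ∈ W' → ∃ i, B p.1 p.2 ⊆ U i := fun p hp => hW' hp
  by_cases hι : Nonempty ι
  · choose! ic hic using hch
    refine ⟨ic '' W', hW'c.image _, ?_⟩
    intro x hx
    obtain ⟨i, hi⟩ := Set.mem_iUnion.1 (htU hx)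
    obtain ⟨s, ⟨G, H, rfl⟩, hxs, hsU⟩ := isBasis.exists_subset_of_mem_open hi (hU i)
    obtain ⟨q, hq, hxq⟩ := hcov (G, H) ⟨i, hsU⟩ x hxs
    exact Set.mem_biUnion (Set.mem_image_of_mem ic hq) (hic q hq hxq)
  · refine ⟨∅, Set.countable_empty, ?_⟩
    intro x hx
    obtain ⟨i, -⟩ := Set.mem_iUnion.1 (htU hx)
    exact absurd ⟨i⟩ hι

instance hl : HereditarilyLindelofSpace X where
  isHereditarilyLindelof_univ := fun t _ => isLindelof_set t

lemma disc_of_discreteTopology (D : Set X) (hD : DiscreteTopology D) : Disc D := by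
  intro d hd
  have h1 : IsOpen ({⟨d, hd⟩} : Set D) := isOpen_discrete _
  rw [isOpen_induced_iff] at h1
  obtain ⟨V, hV, hVd⟩ := h1
  have hdV : d ∈ V := by
    have : (⟨d, hd⟩ : D) ∈ Subtype.val ⁻¹' V := by rw [hVd]; exact rfl
    exact this
  obtain ⟨s, ⟨G, H, rfl⟩, hds, hsV⟩ := isBasis.exists_subset_of_mem_open hdV hV
  refine ⟨G, H, hds, ?_⟩
  intro x hx hxB
  have : (⟨x, hx⟩ : D) ∈ Subtype.val ⁻¹' V := hsV hxB
  rw [hVd] at this
  exact congrArg Subtype.val this

lemma countable_of_discreteTopology (D : Set X) (hD : DiscreteTopology D) : D.Countable := by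
  have h1 : IsLindelof D := isLindelof_set D
  have h2 : IsLindelof (Set.univ : Set D) := by
    rw [← Subtype.range_coe (s := D)] at h1
    rw [← Set.image_univ] at h1
    exact (Topology.IsInducing.subtypeVal.isLindelof_iff).2 h1
  have h3 := h2.countable_of_discrete
  exact Set.countable_coe_iff.1 (Set.countable_univ_iff.1 h3)

theorem main :
    ∃ (X : Type) (_ : TopologicalSpace X),
      T1Space X ∧ HereditarilyLindelofSpace X ∧
      ¬ (∀ U : X → Set X, (∀ x, U x ∈ nhds x) →
          ∃ D : Set X, DiscreteTopology D ∧ (⋃ x ∈ D, U x) = Set.univ) := by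
  refine ⟨X, top, t1, hl, ?_⟩
  intro h
  obtain ⟨D, hD, hU⟩ := h (fun x => B {x} ∅) (fun x => (isOpen_B _ _).mem_nhds (by
    refine ⟨?_, by simp⟩
    intro g hg
    rw [Finset.mem_singleton] at hg
    subst hg
    exact notMem_T g))
  have hne : D.Nonempty := by
    by_contra hne
    rw [Set.not_nonempty_iff_eq_empty] at hne
    subst hne
    have : X.leaf ∈ (Set.univ : Set X) := Set.mem_univ _
    rw [← hU] at this
    simp at this
  obtain ⟨y, hy⟩ := exists_T_eq D (countable_of_discreteTopology D hD) hne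
    (disc_of_discreteTopology D hD)
  have hyU : y ∈ ⋃ x ∈ D, B {x} ∅ := by rw [hU]; exact Set.mem_univ _
  simp only [Set.mem_iUnion] at hyU
  obtain ⟨x, hx, hyx⟩ := hyU
  apply hyx.1 x (Finset.mem_singleton_self _)
  rw [hy]
  exact hx

end Pool.Agent.H360R3.DD
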